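import Mathlib
import Pool.Agent.R931.ZF.Defs

/-!
# Densities, and the proportion of the cosets which force a property: definitions
-/

set_option autoImplicit false

namespace Pool.Agent.N144.SP

open Pool.Agent.R931.ZF Filter

/-- The set of the prime numbers in `A` has lower natural density at least `δ`: for every `ε > 0` and all
large `n`, at least `(δ - ε) π(n)` of the prime numbers `ℓ ≤ n` are in `A`. -/
def LowerDensityGE (A : Set ℕ) (δ : ℝ) : Prop :=
  ∀ ε : ℝ, 0 < ε → ∀ᶠ n : ℕ in atTop,
    δ - ε ≤ (Nat.card {ℓ : ℕ // ℓ ≤ n ∧ ℓ.Prime ∧ ℓ ∈ A} : ℝ) / (Nat.primeCounting n : ℝ)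

/-- The coset `M * g` forces the property `C` of subgroups of `A`: it is satisfied by every subgroup `N` of `A`
which has a coset `N * y` (where `y` is in `A` and normalizes `N`) with conjugates (in `A`) of all elements of
`M * g`. -/
def CosetForces {n : ℕ} (A M : Subgroup (Equiv.Perm (Fin n))) (g : Equiv.Perm (Fin n))
    (C : Subgroup (Equiv.Perm (Fin n)) → Prop) : Prop :=
  ∀ (N : Subgroup (Equiv.Perm (Fin n))) (y : Equiv.Perm (Fin n)), N ≤ A → y ∈ A →
    (∀ u ∈ N, y * u * y⁻¹ ∈ N) → MeetsCoset A N y {a | a * g⁻¹ ∈ M} → C N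

/-- The types `T j` force the property `C` with proportion `δ`.  Let `M` be a normal subgroup of a subgroup
`G` of `A`, such that for every `j` the elements of `T j` are conjugate (in `A`) to elements of one coset
of `M` in `G`.  Then the number of the elements `g` of `G` such that the coset `M * g` forces the property `C`
is at least `δ` times the order of `G`. -/
def ForcesProportion {n : ℕ} {J : Type} (A : Subgroup (Equiv.Perm (Fin n)))
    (T : J → Set (Equiv.Perm (Fin n))) (C : Subgroup (Equiv.Perm (Fin n)) → Prop) (δ : ℝ) : Prop :=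
  ∀ G M : Subgroup (Equiv.Perm (Fin n)), G ≤ A → M ≤ G → (∀ x ∈ G, ∀ u ∈ M, x * u * x⁻¹ ∈ M) →
    (∀ j, ∃ x ∈ G, MeetsCoset A M x (T j)) →
    δ * (Nat.card G : ℝ) ≤ (Nat.card {g : Equiv.Perm (Fin n) // g ∈ G ∧ CosetForces A M g C} : ℝ)

end Pool.Agent.N144.SP
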