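import Mathlib
import Pool.Agent.N204.ZL.Lat

/-!
# The types at almost all primes, and the Frobenius classes in a finite Galois extension

This file extends `typesF` of `Pool.Agent.R931.ZF.Key`: the group `G` is the image of the Galois group of
`ℚ` under a homomorphism `π`, and the coset at `ℓ` is given by the Frobenius elements at `ℓ`.
-/

set_option autoImplicit false
set_option linter.unusedSectionVars false
set_option linter.unusedVariables false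

namespace Pool.Agent.N144.SP

open Function Polynomial Module NumberField IsDedekindDomain Pool.Agent.TH118.SG
  Pool.Agent.Y114.RM Pool.Agent.Y114.MU Pool.Agent.Y114.TF Pool.Agent.Y114.GF
  Pool.Agent.H204R3.GP Pool.Agent.R931.GD Pool.Agent.Y142.ZO Pool.Agent.Y142.ZI
  Pool.Agent.Y142.SS Pool.Agent.R931.BD Pool.Agent.R931.ZL Pool.Agent.R931.ZM Pool.Agent.R931.PD
  Pool.Agent.R931.ZF
open Pool.Agent.Y142.ZD (DistPow dist_of_nice)
open Pool.Agent.Y142.ZS (NiceP nice_of_p S_SPL)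
open Pool.Agent.Y936.SS (Om)

section

variable {K : Type} [Field K] [NumberField K] {Γ : Type} [Group Γ] [TopologicalSpace Γ]
  [IsTopologicalGroup Γ] [CompactSpace Γ] {s : Gal(AlgebraicClosure K/K) →* Γ} {N : ℕ} {wt : ℤ}
  {c r : ℕ} {S : Set (HeightOneSpectrum (𝓞 K))} {P : HeightOneSpectrum (𝓞 K) → ℚ[X]}
  {ρ : ∀ (ℓ : ℕ) [Fact ℓ.Prime], Rep1 Γ N ℓ}

/-- the types at almost all primes -/
theorem typesI (h : SetupG K Γ s N wt c r S P ρ) (R : Set (Fin N → ℤ))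
    {J : Type} [Finite J] (T : J → Set (Equiv.Perm (Fin N))) (hne : ∃ j, (T j).Nonempty)
    (σ₀ : J → GK ℚ) (hσ₀ : ∀ j, ∀ a ∈ T j, ∃ v, GoodPl S P r v ∧ σ₀ j ∈ Typ R a (P v)) :
    ∃ (π : GK ℚ →* Equiv.Perm (Fin N)) (v : HeightOneSpectrum (𝓞 K)) (y : Fin N → QQ),
      GoodPl S P r v ∧ Injective y ∧ (∀ i, aeval (y i) (P v) = 0) ∧
      (∀ g i, g (y i) = y (π g i)) ∧ (∀ g, π g ∈ relAut R) ∧
      (∀ j, ∃ x ∈ π.range, MeetsCoset (relAut R) ((core S P r).map π) x (T j)) ∧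
      Pool.Agent.Y142.ZI.DensityZero {ℓ | ∃ _ : Fact ℓ.Prime,
        ¬ ∀ a, a * (π (σL ℓ))⁻¹ ∈ (core S P r).map π → LocTypT S P r ℓ R (τL ℓ) a} := by
  classical
  have hINT : S_INT := Y484.ZI.t1
  have hCHEB : S_CHEB := Y726.ZI.t1
  have hDENS2 : S_DENS2 := Y681.ZI.t hCHEB
  have hLF : S_LF := Y255.SS.t
  have hCF : S_CF := Y297.SS.t hLF
  have hLOC : S_LOC := Y708.SS.Loc.t hCF
  set C := core S P r with hC
  have hmem : ∀ v, GoodPl S P r v → ∀ g ∈ Fix (P v), g ∈ C := fun v hv g hg => fix_le_core hv hg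
  have hconj : ∀ g : GK ℚ, ∀ d ∈ C, g * d * g⁻¹ ∈ C := fun g d hd => core_conj g d hd
  let T' : Type := Σ j, T j
  have hT'fin : Finite T' := inferInstanceAs (Finite (Σ j, T j))
  obtain ⟨j₀, b₀, hb₀⟩ := hne
  let a₀ : T' := ⟨j₀, b₀, hb₀⟩
  have : Nonempty T' := ⟨a₀⟩
  choose u hu x hinj hx hR hg using fun a : T' => hσ₀ a.1 a.2 a.2.2
  have hdeg := fun a => h.monic (hu a).1.1
  obtain ⟨v, hv, hσ⟩ := key_rel h hLOC T' u hu (fun a => σ₀ a.1) (Lf (P (u a₀))) (Lf_finite _)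
  have hdv := h.monic hv.1.1
  have h1 : ∀ a : T', ∃ σ : GK ℚ, (σ₀ a.1)⁻¹ * σ ∈ C ∧ σ ∈ Typ R a.2 (P v) := by
    intro a
    obtain ⟨σ, hM, hσP, hrel⟩ := hσ a
    refine ⟨σ, core_of_agree (hu a₀) fun y hy => hM y (mem_Lf (hdeg a₀).1.ne_zero hy),
      (typ_isClass R (a.2 : Equiv.Perm (Fin N))).trans _ _ _ hrel
      ⟨x a, hinj a, hx a, hR a, fun i => ?_⟩⟩
    rw [hσP _ (hx a i)]
    exact hg a i
  choose σ hσC y hyinj hy hyR hyσ using h1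
  have hperm : ∀ w : Fin N → QQ, Injective w → (∀ i, aeval (w i) (P v) = 0) → relations w = R →
      ∃ π ∈ relAut R, ∀ i, y a₀ (π i) = w i := by
    intro w hwinj hw hwR
    obtain ⟨π, hπ⟩ := exists_equiv hwinj (u := y a₀)
      (fun i => exhaust hdv.1.ne_zero hdv.2 (hyinj a₀) (hy a₀) (hw i)) rfl
    refine ⟨π, mem_autR_of (hyR a₀) ?_, hπ⟩
    rw [show (fun i => y a₀ (π i)) = w from funext hπ, hwR]
  have hact : ∀ g : GK ℚ, ∃ π ∈ relAut R, ∀ i, g (y a₀ i) = y a₀ (π i) := by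
    intro g
    obtain ⟨π, hπ, h2⟩ := hperm (fun i => g (y a₀ i)) (g.injective.comp (hyinj a₀))
      (fun i => aeval_aut _ (hy a₀ i))
      ((mrel_map (g : QQ ≃ₐ[ℚ] QQ).toRingEquiv.toRingHom (y a₀)).trans (hyR a₀))
    exact ⟨π, hπ, fun i => (h2 i).symm⟩
  -- the action on the roots of `P v`
  choose κ hκA hκ using hact
  let φ : GK ℚ →* Equiv.Perm (Fin N) :=
    { toFun := κ
      map_one' := Equiv.ext fun i => hyinj a₀ (by rw [← hκ]; rfl)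
      map_mul' := fun g g' => Equiv.ext fun i => hyinj a₀ (by
        rw [← hκ, AlgEquiv.mul_apply, hκ g', hκ g]
        rfl) }
  have hφ : ∀ g i, g (y a₀ i) = y a₀ (φ g i) := hκ
  have hφeq : ∀ g a, (∀ i, g (y a₀ i) = y a₀ (a i)) → φ g = a := fun g a hga =>
    Equiv.ext fun i => hyinj a₀ (by rw [← hφ, hga])
  -- the permutations `π a * a * (π a)⁻¹`
  have hπ : ∀ a : T', ∃ π ∈ relAut R, ∀ i, (σ a) (y a₀ i) = y a₀ ((π * a.2 * π⁻¹) i) := by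
    intro a
    obtain ⟨π, hπ, h2⟩ := hperm (y a) (hyinj a) (hy a) (hyR a)
    refine ⟨π, hπ, fun i => ?_⟩
    have h3 : π (π⁻¹ i) = i := Equiv.apply_symm_apply π i
    have h4 := hyσ a (π⁻¹ i)
    rw [← h2, ← h2, h3] at h4
    exact h4
  choose π hπA hπσ using hπ
  have hφσ : ∀ a : T', φ (σ a) = π a * a.2 * (π a)⁻¹ := fun a => hφeq _ _ (hπσ a)
  refine ⟨φ, v, y a₀, hv, hyinj a₀, hy a₀, hφ, hκA, ?_, ?_⟩
  · intro j
    by_cases hj : (T j).Nonempty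
    · obtain ⟨b, hb⟩ := hj
      let b' : T' := ⟨j, b, hb⟩
      refine ⟨π b' * b * (π b')⁻¹, ⟨σ b', hφσ b'⟩, fun a ha => ?_⟩
      let a' : T' := ⟨j, a, ha⟩
      refine ⟨(π a')⁻¹, (relAut R).inv_mem (hπA a'), ?_⟩
      have h2 : σ a' * (σ b')⁻¹ ∈ C := by
        have h3 := C.mul_mem (hσC a') (C.inv_mem (hσC b'))
        have h4 := hconj (σ₀ j) _ h3
        have h5 : σ₀ j * ((σ₀ j)⁻¹ * σ a' * ((σ₀ j)⁻¹ * σ b')⁻¹) * (σ₀ j)⁻¹ =
            σ a' * (σ b')⁻¹ := by group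
        rw [← h5]
        exact h4
      have h6 : (π a')⁻¹⁻¹ * a * (π a')⁻¹ * (π b' * b * (π b')⁻¹)⁻¹ =
          (π a' * a * (π a')⁻¹) * (π b' * b * (π b')⁻¹)⁻¹ := by
        rw [inv_inv]
      rw [h6]
      refine ⟨_, h2, ?_⟩
      rw [map_mul, map_inv, hφσ, hφσ]
    · exact ⟨1, Subgroup.one_mem _, fun a ha => absurd ⟨a, ha⟩ hj⟩
  · -- the bad primes
    have hex : ∀ g : {g : Equiv.Perm (Fin N) // g ∈ φ.range}, ∃ w : GK ℚ, φ w = g.1 := fun g => g.2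
    choose w hw using hex
    let I : Type := {g : Equiv.Perm (Fin N) // g ∈ φ.range} × Equiv.Perm (Fin N)
    let _ : Fintype I := Fintype.ofFinite I
    refine Y142.ZI.DensityZero.mono (density_biUnion (Finset.univ : Finset I)
      (fun i => {ℓ | i.2 * i.1.1⁻¹ ∈ C.map φ ∧ ∃ _ : Fact ℓ.Prime, σL ℓ * (w i.1)⁻¹ ∈ core S P r ∧
        ¬ LocTypT S P r ℓ R (τL ℓ) i.2}) fun i _ => ?_) ?_
    · by_cases hi : i.2 * i.1.1⁻¹ ∈ C.map φ
      · refine Y142.ZI.DensityZero.mono (?_ : Pool.Agent.Y142.ZI.DensityZero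
          {ℓ | ∃ _ : Fact ℓ.Prime, σL ℓ * (w i.1)⁻¹ ∈ core S P r ∧
            ¬ LocTypT S P r ℓ R (τL ℓ) i.2}) (fun ℓ hℓ => hℓ.2)
        obtain ⟨d, hd, hdi⟩ := hi
        refine densityF h hLOC hINT hDENS2 R i.2 hv (w₀ := w i.1) (w := d * w i.1) ?_ ?_
        · refine ⟨y a₀, hyinj a₀, hy a₀, hyR a₀, fun l => ?_⟩
          rw [hφ, map_mul, hdi, hw, inv_mul_cancel_right]
        · rw [mul_inv_cancel_right]
          exact hd
      · refine Y142.ZI.DensityZero.mono (densityZero_finite Set.finite_empty) ?_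
        rintro ℓ ⟨h2, -⟩
        exact absurd h2 hi
    · rintro ℓ ⟨hp, hno⟩
      by_contra hcon
      apply hno
      intro a ha
      by_contra hloc
      apply hcon
      have hgG : φ (σL ℓ) ∈ φ.range := ⟨_, rfl⟩
      refine Set.mem_iUnion₂.2 ⟨(⟨φ (σL ℓ), hgG⟩, a), Finset.mem_univ _, ha, hp, ?_, hloc⟩
      have h2 : (w ⟨φ (σL ℓ), hgG⟩)⁻¹ * σL ℓ ∈ core S P r := core_of_agree hv fun q hq => by
        obtain ⟨i, rfl⟩ := exhaust hdv.1.ne_zero hdv.2 (hyinj a₀) (hy a₀) hq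
        rw [hφ, hφ, hw]
      have h3 := core_conj (S := S) (P := P) (r := r) (w ⟨φ (σL ℓ), hgG⟩) _ h2
      have h4 : w ⟨φ (σL ℓ), hgG⟩ * ((w ⟨φ (σL ℓ), hgG⟩)⁻¹ * σL ℓ) * (w ⟨φ (σL ℓ), hgG⟩)⁻¹ =
          σL ℓ * (w ⟨φ (σL ℓ), hgG⟩)⁻¹ := by
        group
      rwa [h4] at h3

/-- the types at almost all primes -/
theorem typesK (h : SetupG K Γ s N wt c r S P ρ) (R : Set (Fin N → ℤ)) (hRr : RankGE r R)
    {J : Type} (T : J → Set (Equiv.Perm (Fin N))) (hne : ∃ j, (T j).Nonempty)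
    (p : J → ℕ) [∀ j, Fact (p j).Prime] (τ : ∀ j, Gal(PadicAlgCl (p j)/ℚ_[p j]))
    (hτ : ∀ j, ∀ a ∈ T j, TypeOccurs s (ρ (p j)) R (τ j) a) :
    ∃ (π : GK ℚ →* Equiv.Perm (Fin N)) (v : HeightOneSpectrum (𝓞 K)) (y : Fin N → QQ),
      GoodPl S P r v ∧ Injective y ∧ (∀ i, aeval (y i) (P v) = 0) ∧
      (∀ g i, g (y i) = y (π g i)) ∧ (∀ g, π g ∈ relAut R) ∧
      (∀ j, ∃ x ∈ π.range, MeetsCoset (relAut R) ((core S P r).map π) x (T j)) ∧
      Pool.Agent.Y142.ZI.DensityZero {ℓ | ∃ _ : Fact ℓ.Prime,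
        ¬ ∀ a, a * (π (σL ℓ))⁻¹ ∈ (core S P r).map π → LocTypT S P r ℓ R (τL ℓ) a} := by
  classical
  choose σ₀ hσ₀ using fun j => main_localT h R hRr (T j) (p j) (τ j) (hτ j)
  have hfin : Finite (Set.range T) := Set.toFinite (Set.range T)
  choose sec hsec using fun V : Set.range T => V.2
  obtain ⟨π, v, y, h1, h2, h3, h4, h5, h6, h7⟩ := typesI h R (J := Set.range T) (fun V => V.1)
    (by
      obtain ⟨j, hj⟩ := hne
      exact ⟨⟨T j, j, rfl⟩, hj⟩) (fun V => σ₀ (sec V)) (fun V a ha => hσ₀ (sec V) a (by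
        rw [hsec V]
        exact ha))
  exact ⟨π, v, y, h1, h2, h3, h4, h5, fun j => h6 ⟨T j, j, rfl⟩, h7⟩

end

end Pool.Agent.N144.SP
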