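import Mathlib
import Pool.Agent.N144.SP.Types
import Pool.Agent.N144.SP.Defs

/-!
# The law for the Frobenius classes
-/

set_option autoImplicit false
set_option linter.unusedSectionVars false
set_option linter.unusedVariables false

namespace Pool.Agent.N144.SP

open Function Polynomial Module NumberField IsDedekindDomain Pool.Agent.TH118.SG
  Pool.Agent.Y114.RM Pool.Agent.Y114.MU Pool.Agent.Y114.TF Pool.Agent.Y114.GF
  Pool.Agent.H204R3.GP Pool.Agent.R931.GD Pool.Agent.Y142.ZO Pool.Agent.Y142.ZI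
  Pool.Agent.Y142.SS Pool.Agent.R931.BD Pool.Agent.R931.ZL Pool.Agent.R931.ZM Pool.Agent.R931.PD
  Pool.Agent.R931.ZF Filter
open Pool.Agent.Y142.ZD (DistPow dist_of_nice)
open Pool.Agent.Y142.ZS (NiceP nice_of_p S_SPL)
open Pool.Agent.Y936.SS (Om)
open scoped Topology

/-- the property `CosetForces` is invariant under conjugation -/
theorem cosetForces_conj {n : ℕ} {A G M : Subgroup (Equiv.Perm (Fin n))} (hGA : G ≤ A)
    (hnorm : ∀ x ∈ G, ∀ u ∈ M, x * u * x⁻¹ ∈ M) {g x : Equiv.Perm (Fin n)} (hx : x ∈ G)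
    {C : Subgroup (Equiv.Perm (Fin n)) → Prop} (h : CosetForces A M g C) :
    CosetForces A M (x * g * x⁻¹) C := by
  intro N y hN hy hyn hm
  refine h N y hN hy hyn fun a ha => ?_
  have h1 : x * a * x⁻¹ * (x * g * x⁻¹)⁻¹ ∈ M := by
    have h2 := hnorm x hx _ (show a * g⁻¹ ∈ M from ha)
    have h3 : x * a * x⁻¹ * (x * g * x⁻¹)⁻¹ = x * (a * g⁻¹) * x⁻¹ := by group
    rw [h3]
    exact h2
  obtain ⟨z, hz, hzN⟩ := hm (x * a * x⁻¹) h1
  refine ⟨x⁻¹ * z, A.mul_mem (A.inv_mem (hGA hx)) hz, ?_⟩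
  have h4 : (x⁻¹ * z)⁻¹ * a * (x⁻¹ * z) * y⁻¹ = z⁻¹ * (x * a * x⁻¹) * z * y⁻¹ := by group
  rw [h4]
  exact hzN

/-- lower densities -/
theorem lower_of_tendsto {A C B : Set ℕ} {L δ : ℝ}
    (h : Tendsto (fun n : ℕ => (Nat.card {ℓ : ℕ // ℓ ≤ n ∧ ℓ ∈ C} : ℝ) /
      (Nat.primeCounting n : ℝ)) atTop (𝓝 L)) (hδ : δ ≤ L) (hB : Y142.ZI.DensityZero B)
    (hC : ∀ ℓ ∈ C, ℓ ∉ B → ℓ.Prime ∧ ℓ ∈ A) : LowerDensityGE A δ := by
  intro ε hε
  have h1 : Tendsto (fun n : ℕ => (Nat.card {ℓ : ℕ // ℓ ≤ n ∧ ℓ ∈ C} : ℝ) /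
      (Nat.primeCounting n : ℝ) - (Nat.card {ℓ : ℕ // ℓ ≤ n ∧ ℓ ∈ B} : ℝ) /
      (Nat.primeCounting n : ℝ)) atTop (𝓝 (L - 0)) := h.sub hB
  rw [sub_zero] at h1
  have h2 := h1.eventually (lt_mem_nhds (show δ - ε < L by linarith))
  filter_upwards [h2] with n hn
  refine hn.le.trans ?_
  rw [← sub_div]
  refine div_le_div_of_nonneg_right ?_ (Nat.cast_nonneg _)
  rw [sub_le_iff_le_add]
  have hfin : ∀ D : Set ℕ, Finite {ℓ : ℕ // ℓ ≤ n ∧ ℓ ∈ D} := fun D =>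
    Finite.of_injective (fun x => (⟨x.1, Nat.lt_succ_of_le x.2.1⟩ : Fin (n + 1))) (fun x y h => by
      apply Subtype.ext
      exact congrArg (fun z : Fin (n + 1) => z.1) h)
  have hfinA : Finite {ℓ : ℕ // ℓ ≤ n ∧ ℓ.Prime ∧ ℓ ∈ A} :=
    Finite.of_injective (fun x => (⟨x.1, Nat.lt_succ_of_le x.2.1⟩ : Fin (n + 1))) (fun x y h => by
      apply Subtype.ext
      exact congrArg (fun z : Fin (n + 1) => z.1) h)
  have := hfin B
  classical
  have key : Nat.card {ℓ : ℕ // ℓ ≤ n ∧ ℓ ∈ C} ≤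
      Nat.card ({ℓ : ℕ // ℓ ≤ n ∧ ℓ.Prime ∧ ℓ ∈ A} ⊕ {ℓ : ℕ // ℓ ≤ n ∧ ℓ ∈ B}) := by
    refine Nat.card_le_card_of_injective (fun x => if hx : x.1 ∈ B then
      Sum.inr ⟨x.1, x.2.1, hx⟩ else Sum.inl ⟨x.1, x.2.1, hC x.1 x.2.2 hx⟩) ?_
    intro x y hxy
    apply Subtype.ext
    by_cases hx : x.1 ∈ B <;> by_cases hy : y.1 ∈ B <;> simpa [hx, hy] using hxy
  rw [Nat.card_sum] at key
  exact_mod_cast key

section

variable {K : Type} [Field K] [NumberField K] {Γ : Type} [Group Γ] [TopologicalSpace Γ]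
  [IsTopologicalGroup Γ] [CompactSpace Γ] {s : Gal(AlgebraicClosure K/K) →* Γ} {N : ℕ} {wt : ℤ}
  {c r : ℕ} {S : Set (HeightOneSpectrum (𝓞 K))} {P : HeightOneSpectrum (𝓞 K) → ℚ[X]}
  {ρ : ∀ (ℓ : ℕ) [Fact ℓ.Prime], Rep1 Γ N ℓ}

/-- the law, general form -/
theorem law (h : SetupG K Γ s N wt c r S P ρ) (R : Set (Fin N → ℤ)) (hRr : RankGE r R)
    {J : Type} (T : J → Set (Equiv.Perm (Fin N))) (hne : ∃ j, (T j).Nonempty)
    (p : J → ℕ) [∀ j, Fact (p j).Prime] (τ : ∀ j, Gal(PadicAlgCl (p j)/ℚ_[p j]))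
    (hτ : ∀ j, ∀ a ∈ T j, TypeOccurs s (ρ (p j)) R (τ j) a)
    (C : ∀ (ℓ : ℕ) [Fact ℓ.Prime], Prop) (cond : Subgroup (Equiv.Perm (Fin N)) → Prop)
    (hC : ∀ (ℓ : ℕ) [Fact ℓ.Prime] (γ : Γ) (z : Fin N → Om ℓ)
      (e : Basis (Fin N) (Om ℓ) (Fin N → Om ℓ)) (f : ℚ_[ℓ][X])
      (H : Subgroup (Equiv.Perm (Fin N))), OmDat ρ s S P r ℓ R γ z e f →
      LabelsO ρ ℓ e H → cond H → C ℓ) :
    (∀ δ : ℝ, ForcesProportion (relAut R) T cond δ →
      LowerDensityGE {ℓ | ∃ _ : Fact ℓ.Prime, C ℓ} δ) ∧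
    (ForcesSplit (relAut R) T cond → ∃ f : ℤ[X], f.Monic ∧ HasDensityZero {ℓ | ∃ _ : Fact ℓ.Prime,
      (f.map (Int.castRingHom (ZMod ℓ))).Splits ∧ ¬ C ℓ}) := by
  classical
  obtain ⟨π, v, y, hv, hyinj, hy, hyπ, hπA, hmeet, hd⟩ := typesK h R hRr T hne p τ hτ
  set M := (core S P r).map π with hM
  have hGA : π.range ≤ relAut R := by
    rintro _ ⟨g, rfl⟩
    exact hπA g
  have hMG : M ≤ π.range := by
    rintro _ ⟨g, -, rfl⟩
    exact ⟨g, rfl⟩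
  have hnorm : ∀ x ∈ π.range, ∀ u ∈ M, x * u * x⁻¹ ∈ M := by
    rintro _ ⟨g, rfl⟩ _ ⟨d, hdc, rfl⟩
    exact ⟨g * d * g⁻¹, core_conj g d hdc, by rw [map_mul, map_mul, map_inv]⟩
  have hroots : ∀ q : QQ, aeval q (P v) = 0 → ∃ i, y i = q := fun q hq =>
    exhaust (h.monic hv.1.1).1.ne_zero (h.monic hv.1.1).2 hyinj hy hq
  have hπeq : ∀ g h' : GK ℚ, (∀ i, g (y i) = h' (y i)) → π g = π h' := fun g h' hgh =>
    Equiv.ext fun i => hyinj (by rw [← hyπ, ← hyπ, hgh])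
  -- the labels at `ℓ`
  have hlab : ∀ (ℓ : ℕ) [Fact ℓ.Prime],
      (∀ a, a * (π (σL ℓ))⁻¹ ∈ M → LocTypT S P r ℓ R (τL ℓ) a) →
      CosetForces (relAut R) M (π (σL ℓ)) cond → C ℓ := by
    intro ℓ _ hloc hcf
    obtain ⟨γ, z, e, f, H, y', hd, hHA, hyA, hyn, hm, hlab⟩ := label_coset h (τL ℓ)
      (T := {a | a * (π (σL ℓ))⁻¹ ∈ M}) ⟨π (σL ℓ), by
        change π (σL ℓ) * (π (σL ℓ))⁻¹ ∈ M
        rw [mul_inv_cancel]
        exact M.one_mem⟩ (fun a ha => by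
        have h1 := (relAut R).mul_mem (hGA (hMG (show a * (π (σL ℓ))⁻¹ ∈ M from ha))) (hπA (σL ℓ))
        rwa [inv_mul_cancel_right] at h1) fun a ha => hloc a ha
    exact hC ℓ γ z e f H hd hlab (hcf H y' hHA hyA hyn hm)
  refine ⟨fun δ hδ => ?_, fun hsplit => ?_⟩
  · -- the density
    have hCHEB : S_CHEB := Y726.ZI.t1
    have hopen : IsOpen (π.ker : Set (GK ℚ)) := by
      refine Subgroup.isOpen_mono (H₁ := (Lf (P v)).fixingSubgroup) (fun g hg => ?_)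
        (@IntermediateField.fixingSubgroup_isOpen ℚ QQ _ _ (AlgebraicClosure.instAlgebra ℚ)
          (Lf (P v)) (Lf_finite _))
      change π g = 1
      rw [← map_one π]
      refine hπeq _ _ fun i => ?_
      exact (IntermediateField.mem_fixingSubgroup_iff _ _).1 hg (y i)
        (mem_Lf hv.1.2.1.ne_zero (hy i))
    let 𝒢 : Set (Equiv.Perm (Fin N)) := {g | g ∈ π.range ∧ CosetForces (relAut R) M g cond}
    let CC : Set (GK ℚ) := {σ | CosetForces (relAut R) M (π σ) cond}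
    have hcheb := hCHEB π.ker inferInstance hopen CC (fun g hg h' => by
        change CosetForces (relAut R) M (π (h' * g * h'⁻¹)) cond
        rw [map_mul, map_mul, map_inv]
        exact cosetForces_conj hGA hnorm ⟨h', rfl⟩ hg) (fun g hg u hu => by
        change CosetForces (relAut R) M (π (g * u)) cond
        rw [map_mul, (MonoidHom.mem_ker).1 hu, mul_one]
        exact hg)
    have hcard : (Nat.card (GK ℚ ⧸ π.ker) : ℝ) = Nat.card π.range := by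
      rw [Nat.card_congr (QuotientGroup.quotientKerEquivRange π).toEquiv]
    have hcard2 : (((QuotientGroup.mk : GK ℚ → GK ℚ ⧸ π.ker) '' CC).ncard : ℝ) =
        Nat.card {g : Equiv.Perm (Fin N) // g ∈ π.range ∧ CosetForces (relAut R) M g cond} := by
      rw [← Nat.card_coe_set_eq]
      congr 1
      refine Nat.card_congr (Equiv.ofBijective
        (fun x => ⟨((QuotientGroup.quotientKerEquivRange π) x.1 : π.range), ?_⟩) ⟨?_, ?_⟩)
      · refine ⟨((QuotientGroup.quotientKerEquivRange π) x.1).2, ?_⟩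
        obtain ⟨_, σ, hσ, rfl⟩ := x
        exact hσ
      · intro x x' hxx
        have h1 := congrArg Subtype.val hxx
        exact Subtype.ext ((QuotientGroup.quotientKerEquivRange π).injective (Subtype.ext h1))
      · rintro ⟨_, ⟨σ, rfl⟩, hg⟩
        exact ⟨⟨QuotientGroup.mk σ, σ, hg, rfl⟩, rfl⟩
    rw [hcard, hcard2] at hcheb
    have hpos : (0 : ℝ) < Nat.card π.range := Nat.cast_pos.2 Nat.card_pos
    have hδ' := hδ π.range M hGA hMG hnorm hmeet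
    rw [← le_div_iff₀ hpos] at hδ'
    obtain ⟨b₀, hb₀⟩ := conj_frob_roots (P v) (h.monic hv.1.1).1 hv.1.2.2.1
    refine lower_of_tendsto (C := {ℓ | ℓ.Prime ∧ ∃ σ ∈ CC, FrobAt ℓ σ}) hcheb hδ'
      (hd.union (densityZero_finite (Set.finite_le_nat b₀))) ?_
    rintro ℓ ⟨hp, σ, hσ, hfr⟩ hnot
    rw [Set.mem_union, not_or] at hnot
    obtain ⟨hn1, hn2⟩ := hnot
    have hfact : Fact ℓ.Prime := ⟨hp⟩
    refine ⟨hp, hfact, hlab ℓ ?_ ?_⟩
    · by_contra hcon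
      exact hn1 ⟨hfact, hcon⟩
    · obtain ⟨x, hx⟩ := hb₀ ℓ (not_le.1 hn2) hfact (σL ℓ) σ (frob_σL ℓ) hfr
      have h1 : π σ = π x * π (σL ℓ) * (π x)⁻¹ := by
        rw [← map_inv, ← map_mul, ← map_mul]
        exact hπeq _ _ fun i => hx (y i) (hy i)
      have h2 : π (σL ℓ) = (π x)⁻¹ * π σ * (π x)⁻¹⁻¹ := by
        rw [h1]
        group
      rw [h2]
      exact cosetForces_conj hGA hnorm (π.range.inv_mem ⟨x, rfl⟩) hσ
  · obtain ⟨f, hf, b, hb⟩ := exists_poly hv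
    refine ⟨f, hf, ?_⟩
    refine Y142.ZI.DensityZero.mono (hd.union (densityZero_finite (Set.finite_le_nat b))) ?_
    rintro ℓ ⟨hp, hspl, hno⟩
    by_contra hnot
    rw [Set.mem_union, not_or] at hnot
    obtain ⟨hn1, hn2⟩ := hnot
    have hin : π (σL ℓ) ∈ M := ⟨_, hb ℓ (not_le.1 hn2) hp hspl _ (frob_σL ℓ), rfl⟩
    refine hno (hlab ℓ ?_ ?_)
    · by_contra hcon
      exact hn1 ⟨hp, hcon⟩
    · intro H y' hHA hyA hyn hm
      refine hsplit π.range M H hGA hMG hnorm hmeet ⟨hHA, fun a ha => ?_⟩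
      have hy1 : y' ∈ H := by
        obtain ⟨x, -, hx⟩ := hm 1 (by
          change 1 * (π (σL ℓ))⁻¹ ∈ M
          rw [one_mul]
          exact M.inv_mem hin)
        rw [mul_one, inv_mul_cancel, one_mul] at hx
        exact (H.inv_mem_iff).1 hx
      obtain ⟨x, hxA, hx⟩ := hm a (M.mul_mem ha (M.inv_mem hin))
      refine ⟨x, hxA, ?_⟩
      have h3 := H.mul_mem hx hy1
      rwa [inv_mul_cancel_right] at h3

end

end Pool.Agent.N144.SP
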