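import Mathlib
import Pool.Agent.N144.SP.Law

/-!
# Semisimplicity, endomorphisms and the Mumford-Tate conjecture for a proportion of the primes
-/

set_option autoImplicit false
set_option linter.unusedSectionVars false
set_option linter.unusedVariables false

namespace Pool.Agent.N144.SP

open Function Polynomial Module NumberField IsDedekindDomain TensorProduct Pool.Agent.TH118.SG
  Pool.Agent.Y114.RM Pool.Agent.Y114.MU Pool.Agent.Y114.TF Pool.Agent.Y114.GF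
  Pool.Agent.H204R3.GP Pool.Agent.R931.GD Pool.Agent.Y142.ZO Pool.Agent.Y142.ZI
  Pool.Agent.Y142.SS Pool.Agent.R931.BD Pool.Agent.R931.ZL Pool.Agent.R931.ZM
  Pool.Agent.R931.PD Pool.Agent.R931.ZF Pool.Agent.R931.ZG
open Pool.Agent.Y936.SS (Om)

/-- Three sources of semisimplicity, for a group `H` of permutations of the Frobenius eigenvalues: for every
`ℓ` the realization has, over some finite extension of the ground field, an algebra of endomorphisms whose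
dimension is at least the number of orbits of `H`; or all realizations are polarized and the orbits of `H`
are stable under all dualities; or there are Lie algebras `𝔤 ℓ` with the properties of the Lie algebra of
the motivic Galois group, of rank at most `r`, such that `H` satisfies the rational lattice condition. -/
def Source {Γ : Type} [Group Γ] {N : ℕ} (ρ : ∀ (ℓ : ℕ) [Fact ℓ.Prime], Rep1 Γ N ℓ)
    (R : Set (Fin N → ℤ)) (r : ℕ) (H : Subgroup (Equiv.Perm (Fin N))) : Prop :=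
  (∀ (ℓ : ℕ) [Fact ℓ.Prime], ∃ Δ : Subgroup Γ, Δ.FiniteIndex ∧
    orbitCount H ≤ centralizerDim (ρ ℓ () '' (Δ : Set Γ))) ∨
  ((∀ (ℓ : ℕ) [Fact ℓ.Prime], Polarized (ρ ℓ)) ∧ SelfDualOrbits R H) ∨
  ∃ 𝔤 : ∀ (ℓ : ℕ) [Fact ℓ.Prime], End1 N ℓ, ∀ (ℓ : ℕ) [Fact ℓ.Prime],
    Motivic (ρ ℓ) (𝔤 ℓ) ∧ RankLE (𝔤 ℓ) r ∧ LatticeRat R (commutantDim (𝔤 ℓ)) H

section

variable {K : Type} [Field K] [NumberField K] {Γ : Type} [Group Γ] [TopologicalSpace Γ]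
  [IsTopologicalGroup Γ] [CompactSpace Γ] {s : Gal(AlgebraicClosure K/K) →* Γ} {N : ℕ} {wt : ℤ}
  {c r : ℕ} {S : Set (HeightOneSpectrum (𝓞 K))} {P : HeightOneSpectrum (𝓞 K) → ℚ[X]}
  {ρ : ∀ (ℓ : ℕ) [Fact ℓ.Prime], Rep1 Γ N ℓ}

/-- semisimplicity -/
theorem semi_law (h : SetupG K Γ s N wt c r S P ρ) (R : Set (Fin N → ℤ)) (hRr : RankGE r R)
    {J : Type} (T : J → Set (Equiv.Perm (Fin N))) (hne : ∃ j, (T j).Nonempty)
    (p : J → ℕ) [∀ j, Fact (p j).Prime] (τ : ∀ j, Gal(PadicAlgCl (p j)/ℚ_[p j]))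
    (hτ : ∀ j, ∀ a ∈ T j, TypeOccurs s (ρ (p j)) R (τ j) a) :
    (∀ δ : ℝ, ForcesProportion (relAut R) T (Source ρ R r) δ →
      LowerDensityGE {ℓ | ∃ _ : Fact ℓ.Prime, Semisimple (ρ ℓ)} δ) ∧
    (ForcesSplit (relAut R) T (Source ρ R r) → ∃ f : ℤ[X], f.Monic ∧
      HasDensityZero {ℓ | ∃ _ : Fact ℓ.Prime,
        (f.map (Int.castRingHom (ZMod ℓ))).Splits ∧ ¬ Semisimple (ρ ℓ)}) := by
  refine law h R hRr T hne p τ hτ (fun ℓ _ => Semisimple (ρ ℓ)) (Source ρ R r) ?_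
  intro ℓ _ γ z e f H hd hlab hs
  rcases hs with h1 | ⟨hpol, hdu⟩ | ⟨𝔤, h𝔤⟩
  · obtain ⟨Δ₀, hΔ₀, hdim⟩ := h1 ℓ
    rw [centralizerDim_eq] at hdim
    exact semi_of_labels hd hlab hΔ₀ (((hdim.trans (com_leS Δ₀)).trans
      (comS_leM Δ₀)).trans (comM_le Δ₀))
  · exact semi_pol h hd hlab hdu (hpol ℓ)
  · obtain ⟨hmot, hrk, hlat⟩ := h𝔤 ℓ
    exact semi_of_latticeRat h.pos hmot hrk (h.cont ℓ) hd hlab hlat le_rfl

/-- endomorphisms and invariant subspaces -/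
theorem endo_law (h : SetupG K Γ s N wt c r S P ρ) (R : Set (Fin N → ℤ)) (hRr : RankGE r R)
    {J : Type} (T : J → Set (Equiv.Perm (Fin N))) (hne : ∃ j, (T j).Nonempty)
    (p : J → ℕ) [∀ j, Fact (p j).Prime] (τ : ∀ j, Gal(PadicAlgCl (p j)/ℚ_[p j]))
    (hτ : ∀ j, ∀ a ∈ T j, TypeOccurs s (ρ (p j)) R (τ j) a) (m : ℕ) :
    (∀ δ : ℝ, ForcesProportion (relAut R) T (fun H => orbitCount H ≤ m) δ →
      LowerDensityGE {ℓ | ∃ _ : Fact ℓ.Prime, ∀ Δ : Subgroup Γ, Δ.FiniteIndex →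
        centralizerDim (ρ ℓ () '' (Δ : Set Γ)) ≤ m ∧
          (stableSubspaces (ρ ℓ) Δ).encard ≤ 2 ^ m} δ) ∧
    (ForcesSplit (relAut R) T (fun H => orbitCount H ≤ m) → ∃ f : ℤ[X], f.Monic ∧
      HasDensityZero {ℓ | ∃ _ : Fact ℓ.Prime,
        (f.map (Int.castRingHom (ZMod ℓ))).Splits ∧ ¬ ∀ Δ : Subgroup Γ, Δ.FiniteIndex →
        centralizerDim (ρ ℓ () '' (Δ : Set Γ)) ≤ m ∧
          (stableSubspaces (ρ ℓ) Δ).encard ≤ 2 ^ m}) := by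
  refine law h R hRr T hne p τ hτ (fun ℓ _ => ∀ Δ : Subgroup Γ, Δ.FiniteIndex →
        centralizerDim (ρ ℓ () '' (Δ : Set Γ)) ≤ m ∧
          (stableSubspaces (ρ ℓ) Δ).encard ≤ 2 ^ m) (fun H => orbitCount H ≤ m) ?_
  intro ℓ _ γ z e f H hd hlab hH Δ hΔ
  refine ⟨?_, (stable_leO hd hlab hΔ).trans (pow_le_pow_right₀ one_le_two hH)⟩
  rw [centralizerDim_eq]
  exact ((com_leS Δ).trans (comS_leO hd hlab hΔ)).trans hH

/-- the Mumford-Tate conjecture -/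
theorem mt_law {𝔤 : ∀ (ℓ : ℕ) [Fact ℓ.Prime], End1 N ℓ} (h' : Setup K Γ s N wt c r S P ρ 𝔤)
    (R : Set (Fin N → ℤ)) (hRr : RankGE r R)
    {J : Type} (T : J → Set (Equiv.Perm (Fin N))) (hne : ∃ j, (T j).Nonempty)
    (p : J → ℕ) [∀ j, Fact (p j).Prime] (τ : ∀ j, Gal(PadicAlgCl (p j)/ℚ_[p j]))
    (hτ : ∀ j, ∀ a ∈ T j, TypeOccurs s (ρ (p j)) R (τ j) a) :
    (∀ δ : ℝ, ForcesProportion (relAut R) T
        (fun H => ∀ (ℓ : ℕ) [Fact ℓ.Prime], LatticeFull R (commutantDim (𝔤 ℓ)) H) δ →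
      LowerDensityGE {ℓ | ∃ _ : Fact ℓ.Prime,
        Semisimple (ρ ℓ) ∧ TateTensorsOf (ρ ℓ) (𝔤 ℓ)} δ) ∧
    (ForcesSplit (relAut R) T
        (fun H => ∀ (ℓ : ℕ) [Fact ℓ.Prime], LatticeFull R (commutantDim (𝔤 ℓ)) H) →
      ∃ f : ℤ[X], f.Monic ∧ HasDensityZero {ℓ | ∃ _ : Fact ℓ.Prime,
        (f.map (Int.castRingHom (ZMod ℓ))).Splits ∧
          ¬ (Semisimple (ρ ℓ) ∧ TateTensorsOf (ρ ℓ) (𝔤 ℓ))}) := by
  have h := setup_of_motivic h'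
  refine law h R hRr T hne p τ hτ
    (fun ℓ _ => Semisimple (ρ ℓ) ∧ TateTensorsOf (ρ ℓ) (𝔤 ℓ)) _ ?_
  intro ℓ _ γ z e f H hd hlab hH
  have hlat := hH ℓ
  have hss : Semisimple (ρ ℓ) := semi_of_latticeRat h.pos (h'.motivic ℓ) (h'.rank ℓ) (h'.cont ℓ)
    hd hlab (latticeRat_of_full hlat) le_rfl
  exact ⟨hss, full_of_lattice h.pos (h'.motivic ℓ) (h'.rank ℓ) (h'.cont ℓ) hss hd hlab hlat le_rfl⟩

end

end Pool.Agent.N144.SP
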