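import Mathlib
import Pool.Agent.N144.SP.Semi
import Pool.Agent.R931.ZF.Coef

/-!
# Irreducibility for a proportion of the primes, with coefficients
-/

set_option autoImplicit false
set_option linter.unusedSectionVars false
set_option linter.unusedVariables false

namespace Pool.Agent.N144.SP

open Function Polynomial Module NumberField IsDedekindDomain TensorProduct Pool.Agent.TH118.SG
  Pool.Agent.Y114.RM Pool.Agent.Y114.MU Pool.Agent.Y114.TF Pool.Agent.Y114.GF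
  Pool.Agent.H204R3.GP Pool.Agent.R931.GD Pool.Agent.Y142.ZO Pool.Agent.Y142.ZI
  Pool.Agent.Y142.SS Pool.Agent.R931.BD Pool.Agent.R931.ZL Pool.Agent.R931.ZM
  Pool.Agent.R931.PD Pool.Agent.R931.ZF Pool.Agent.R931.ZG
open Pool.Agent.Y936.SS (Om)

section

variable {K : Type} [Field K] [NumberField K] {Γ : Type} [Group Γ] [TopologicalSpace Γ]
  [IsTopologicalGroup Γ] [CompactSpace Γ] {s : Gal(AlgebraicClosure K/K) →* Γ} {N : ℕ} {wt : ℤ}
  {c r : ℕ} {S : Set (HeightOneSpectrum (𝓞 K))} {P : HeightOneSpectrum (𝓞 K) → ℚ[X]}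
  {ρ : ∀ (ℓ : ℕ) [Fact ℓ.Prime], Rep1 Γ N ℓ} {E : Type} [Field E] [NumberField E]

/-- the parts at `ℓ` are strongly irreducible, and the endomorphisms are the elements of `E` -/
def IrreducibleAt (ρ : ∀ (ℓ : ℕ) [Fact ℓ.Prime], Rep1 Γ N ℓ)
    (ε : ∀ (ℓ : ℕ) [Fact ℓ.Prime], E →+* End ℚ_[ℓ] (Fin N → ℚ_[ℓ])) (ℓ : ℕ) [Fact ℓ.Prime] : Prop :=
  (∀ φ : E →+* PadicAlgCl ℓ, StronglyIrreducible (ρ ℓ) (partAt (ε ℓ) φ)) ∧
    ∀ Δ : Subgroup Γ, Δ.FiniteIndex → centralizerDim (ρ ℓ () '' (Δ : Set Γ)) ≤ finrank ℚ E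

/-- irreducibility -/
theorem irr_law (h : SetupG K Γ s N wt c r S P ρ) (R : Set (Fin N → ℤ)) (hRr : RankGE r R)
    {J : Type} (T : J → Set (Equiv.Perm (Fin N))) (hne : ∃ j, (T j).Nonempty)
    (p : J → ℕ) [∀ j, Fact (p j).Prime] (τ : ∀ j, Gal(PadicAlgCl (p j)/ℚ_[p j]))
    (hτ : ∀ j, ∀ a ∈ T j, TypeOccurs s (ρ (p j)) R (τ j) a)
    (n : ℕ) (hn : 0 < n) (ε : ∀ (ℓ : ℕ) [Fact ℓ.Prime], E →+* End ℚ_[ℓ] (Fin N → ℚ_[ℓ]))
    (hε : ∀ (ℓ : ℕ) [Fact ℓ.Prime], ActsFreely n (ρ ℓ) (ε ℓ)) :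
    (∀ δ : ℝ, ForcesProportion (relAut R) T (fun H => orbitCount H ≤ finrank ℚ E) δ →
      LowerDensityGE {ℓ | ∃ _ : Fact ℓ.Prime, IrreducibleAt ρ ε ℓ} δ) ∧
    (ForcesSplit (relAut R) T (fun H => orbitCount H ≤ finrank ℚ E) → ∃ f : ℤ[X], f.Monic ∧
      HasDensityZero {ℓ | ∃ _ : Fact ℓ.Prime,
        (f.map (Int.castRingHom (ZMod ℓ))).Splits ∧ ¬ IrreducibleAt ρ ε ℓ}) := by
  refine law h R hRr T hne p τ hτ (fun ℓ _ => IrreducibleAt ρ ε ℓ)
    (fun H => orbitCount H ≤ finrank ℚ E) ?_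
  intro ℓ _ γ z e f H hd hlab hH
  refine ⟨fun φ => irr_of_labels hd hlab hn (hε ℓ) hH φ, fun Δ hΔ => ?_⟩
  rw [centralizerDim_eq]
  exact ((com_leS Δ).trans (comS_leO hd hlab hΔ)).trans hH

end

/-- A group which contains a conjugate of a transitive cyclic permutation has one orbit. -/
theorem orbitCount_of_transitive {n : ℕ} {H : Subgroup (Equiv.Perm (Fin n))}
    {a w : Equiv.Perm (Fin n)} (ha : ∀ i k, ∃ m : ℕ, (a ^ m) i = k) (hw : w⁻¹ * a * w ∈ H) :
    orbitCount H ≤ 1 := by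
  have hsub : Subsingleton (MulAction.orbitRel.Quotient H (Fin n)) := by
    refine ⟨fun x y => ?_⟩
    induction x using Quotient.inductionOn with | _ i =>
    induction y using Quotient.inductionOn with | _ k =>
    refine Quotient.sound ?_
    change i ∈ MulAction.orbit H k
    obtain ⟨m, hm⟩ := ha (w k) (w i)
    refine ⟨⟨(w⁻¹ * a * w) ^ m, H.pow_mem hw m⟩, ?_⟩
    change ((w⁻¹ * a * w) ^ m) k = i
    have h1 : (w⁻¹ * a * w) ^ m = w⁻¹ * a ^ m * w := by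
      have h2 := conj_pow (i := m) (a := w⁻¹) (b := a)
      rw [inv_inv] at h2
      exact h2
    rw [h1]
    change w⁻¹ ((a ^ m) (w k)) = i
    rw [hm]
    exact Equiv.symm_apply_apply w i
  have hfin : Finite (MulAction.orbitRel.Quotient H (Fin n)) := Finite.of_subsingleton
  exact Finite.card_le_one_iff_subsingleton.2 hsub

/-- If the types at one prime contain `1` and a transitive permutation `a` all of whose orbits are given by its
powers (an `n`-cycle), then the property to have at most one orbit is forced with proportion `n / |A|`. -/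
theorem proportion_of_cycle {n : ℕ} (hn : 0 < n) {J : Type} (A : Subgroup (Equiv.Perm (Fin n)))
    (T : J → Set (Equiv.Perm (Fin n))) (j : J) (h1 : 1 ∈ T j) {a : Equiv.Perm (Fin n)}
    (ha : a ∈ T j) (hcyc : ∀ i k, ∃ m : ℕ, (a ^ m) i = k) :
    ForcesProportion A T (fun H => orbitCount H ≤ 1) ((n : ℝ) / (Nat.card A : ℝ)) ∧
      ForcesSplit A T (fun H => orbitCount H ≤ 1) := by
  classical
  -- `M` contains a conjugate of `a`
  have key : ∀ G M : Subgroup (Equiv.Perm (Fin n)), (∀ j, ∃ x ∈ G, MeetsCoset A M x (T j)) →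
      ∃ w ∈ A, w⁻¹ * a * w ∈ M := by
    intro G M hm
    obtain ⟨x, hx, hmx⟩ := hm j
    obtain ⟨z, hz, h2⟩ := hmx 1 h1
    rw [mul_one, inv_mul_cancel, one_mul] at h2
    have hxM : x ∈ M := (M.inv_mem_iff).1 h2
    obtain ⟨w, hw, h3⟩ := hmx a ha
    refine ⟨w, hw, ?_⟩
    have h4 := M.mul_mem h3 hxM
    rwa [inv_mul_cancel_right] at h4
  have hsplit : ∀ M H : Subgroup (Equiv.Perm (Fin n)), (∃ w ∈ A, w⁻¹ * a * w ∈ M) →
      (∀ b ∈ M, ∃ x ∈ A, x⁻¹ * b * x ∈ H) → orbitCount H ≤ 1 := by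
    rintro M H ⟨w, hw, hwM⟩ hc
    obtain ⟨x, hx, hxH⟩ := hc _ hwM
    refine orbitCount_of_transitive (w := w * x) hcyc ?_
    have h2 : (w * x)⁻¹ * a * (w * x) = x⁻¹ * (w⁻¹ * a * w) * x := by group
    rw [h2]
    exact hxH
  refine ⟨fun G M hGA hMG hnorm hmeet => ?_, fun G M H hGA hMG hnorm hmeet hc =>
    hsplit M H (key G M hmeet) hc.2⟩
  obtain ⟨w, hw, hwM⟩ := key G M hmeet
  -- the order of `M`
  have hcardM : n ≤ Nat.card M := by
    have h2 : Function.Surjective fun b : M => (b : Equiv.Perm (Fin n)) ⟨0, hn⟩ := by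
      intro k
      obtain ⟨m, hm⟩ := hcyc (w ⟨0, hn⟩) (w k)
      refine ⟨⟨(w⁻¹ * a * w) ^ m, M.pow_mem hwM m⟩, ?_⟩
      change ((w⁻¹ * a * w) ^ m) ⟨0, hn⟩ = k
      have h1 : (w⁻¹ * a * w) ^ m = w⁻¹ * a ^ m * w := by
        have h2 := conj_pow (i := m) (a := w⁻¹) (b := a)
        rw [inv_inv] at h2
        exact h2
      rw [h1]
      change w⁻¹ ((a ^ m) (w ⟨0, hn⟩)) = k
      rw [hm]
      exact Equiv.symm_apply_apply w k
    have h3 := Nat.card_le_card_of_surjective _ h2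
    rwa [Nat.card_eq_fintype_card, Fintype.card_fin] at h3
  have hle : Nat.card M ≤
      Nat.card {g : Equiv.Perm (Fin n) // g ∈ G ∧ CosetForces A M g (fun H => orbitCount H ≤ 1)} := by
    refine Nat.card_le_card_of_injective (fun b => ⟨b.1, hMG b.2, fun H y hH hy hyn hm => ?_⟩)
      (fun x y hxy => Subtype.ext (congrArg (fun z => z.1) hxy))
    have hyH : y ∈ H := by
      obtain ⟨x, -, hx⟩ := hm 1 (by
        change 1 * (b.1)⁻¹ ∈ M
        rw [one_mul]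
        exact M.inv_mem b.2)
      rw [mul_one, inv_mul_cancel, one_mul] at hx
      exact (H.inv_mem_iff).1 hx
    refine hsplit M H ⟨w, hw, hwM⟩ fun u hu => ?_
    obtain ⟨x, hx, hxH⟩ := hm u (M.mul_mem hu (M.inv_mem b.2))
    refine ⟨x, hx, ?_⟩
    have h4 := H.mul_mem hxH hyH
    rwa [inv_mul_cancel_right] at h4
  have hA : (0 : ℝ) < Nat.card A := Nat.cast_pos.2 Nat.card_pos
  have hGA' : (Nat.card G : ℝ) ≤ Nat.card A := by
    exact_mod_cast Nat.card_le_card_of_injective (Subgroup.inclusion hGA)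
      (Subgroup.inclusion_injective hGA)
  calc (n : ℝ) / (Nat.card A : ℝ) * (Nat.card G : ℝ) ≤
        (n : ℝ) / (Nat.card A : ℝ) * (Nat.card A : ℝ) :=
        mul_le_mul_of_nonneg_left hGA' (by positivity)
    _ = n := div_mul_cancel₀ _ hA.ne'
    _ ≤ (Nat.card M : ℝ) := by exact_mod_cast hcardM
    _ ≤ _ := by exact_mod_cast hle

end Pool.Agent.N144.SP
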