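import Mathlib
import Pool.Agent.N144.SP.Irr

/-!
# The Mumford-Tate conjecture for a proportion of the primes
-/

set_option autoImplicit false
set_option linter.unusedSectionVars false
set_option linter.unusedVariables false

namespace Pool.Agent.N144.SP

open Function Polynomial Module NumberField IsDedekindDomain TensorProduct Pool.Agent.TH118.SG
  Pool.Agent.Y114.RM Pool.Agent.Y114.MU Pool.Agent.Y114.TF Pool.Agent.Y114.GF
  Pool.Agent.H204R3.GP Pool.Agent.R931.GD Pool.Agent.Y142.ZO Pool.Agent.Y142.ZI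
  Pool.Agent.Y142.SS Pool.Agent.R931.BD Pool.Agent.R931.ZL Pool.Agent.R931.ZM
  Pool.Agent.R931.PD Pool.Agent.R931.ZF Pool.Agent.R931.ZG
open Pool.Agent.Y936.SS (Om)

/-- monotonicity of the proportion -/
theorem ForcesProportion.mono {n : ℕ} {J : Type} {A : Subgroup (Equiv.Perm (Fin n))}
    {T : J → Set (Equiv.Perm (Fin n))} {C C' : Subgroup (Equiv.Perm (Fin n)) → Prop} {δ : ℝ}
    (h : ForcesProportion A T C δ) (hC : ∀ H, C H → C' H) : ForcesProportion A T C' δ := by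
  intro G M hGA hMG hnorm hmeet
  refine (h G M hGA hMG hnorm hmeet).trans ?_
  let F : {g : Equiv.Perm (Fin n) // g ∈ G ∧ CosetForces A M g C} →
      {g : Equiv.Perm (Fin n) // g ∈ G ∧ CosetForces A M g C'} := fun x =>
    ⟨x.1, x.2.1, fun H y hH hy hyn hm => hC H (x.2.2 H y hH hy hyn hm)⟩
  have hF : Function.Injective F := fun x y hxy =>
    Subtype.ext (congrArg (fun z : {g : Equiv.Perm (Fin n) // g ∈ G ∧ CosetForces A M g C'} => z.1)
      hxy)
  exact_mod_cast Nat.card_le_card_of_injective F hF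

theorem forcesSplit_mono {n : ℕ} {J : Type} {A : Subgroup (Equiv.Perm (Fin n))}
    {T : J → Set (Equiv.Perm (Fin n))} {C C' : Subgroup (Equiv.Perm (Fin n)) → Prop}
    (h : ForcesSplit A T C) (hC : ∀ H, C H → C' H) : ForcesSplit A T C' :=
  fun G M H hGA hMG hnorm hmeet hc => hC H (h G M H hGA hMG hnorm hmeet hc)

/-- the lattice condition for a transitive group -/
theorem latticeFull_of_one {n : ℕ} {R : Set (Fin n → ℤ)} {m : ℕ}
    {H : Subgroup (Equiv.Perm (Fin n))} (h : orbitCount H ≤ 1) : LatticeFull R m H := by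
  intro B hB hm b hb i
  have hfin : Finite (MulAction.orbitRel.Quotient H (Fin n)) := Quotient.finite _
  have hsub : Subsingleton (MulAction.orbitRel.Quotient H (Fin n)) :=
    Finite.card_le_one_iff_subsingleton.1 h
  have h1 : (Quotient.mk'' (b i) : MulAction.orbitRel.Quotient H (Fin n)) = Quotient.mk'' i :=
    Subsingleton.elim _ _
  have h2 : (b i) ∈ MulAction.orbit H i := Quotient.exact h1
  obtain ⟨a, ha⟩ := h2
  have ha' : (a : Equiv.Perm (Fin n)) i = b i := ha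
  rw [← ha']
  exact AddSubgroup.subset_closure (Or.inr ⟨a, a.2, i, rfl⟩)

theorem latticeFull_mono {n : ℕ} {R : Set (Fin n → ℤ)} {m m' : ℕ} (hm : m ≤ m')
    {H : Subgroup (Equiv.Perm (Fin n))} (h : LatticeFull R m H) : LatticeFull R m' H :=
  fun B hB hmB b hb i => h B hB (hm.trans hmB) b hb i

section

variable {K : Type} [Field K] [NumberField K] {Γ : Type} [Group Γ] [TopologicalSpace Γ]
  [IsTopologicalGroup Γ] [CompactSpace Γ] {s : Gal(AlgebraicClosure K/K) →* Γ} {N : ℕ} {wt : ℤ}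
  {c r : ℕ} {S : Set (HeightOneSpectrum (𝓞 K))} {P : HeightOneSpectrum (𝓞 K) → ℚ[X]}
  {ρ : ∀ (ℓ : ℕ) [Fact ℓ.Prime], Rep1 Γ N ℓ}

/-- the Mumford-Tate conjecture, with the dimension of the known endomorphisms, and for one split and one
irreducible Frobenius polynomial -/
theorem mt_main {𝔤 : ∀ (ℓ : ℕ) [Fact ℓ.Prime], End1 N ℓ} (h' : Setup K Γ s N wt c r S P ρ 𝔤)
    (m : ℕ) (hend : ∀ (ℓ : ℕ) [Fact ℓ.Prime], m ≤ commutantDim (𝔤 ℓ))
    (R : Set (Fin N → ℤ)) (hRr : RankGE r R)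
    {J : Type} (T : J → Set (Equiv.Perm (Fin N))) (hne : ∃ j, (T j).Nonempty)
    (p : J → ℕ) [∀ j, Fact (p j).Prime] (τ : ∀ j, Gal(PadicAlgCl (p j)/ℚ_[p j]))
    (hτ : ∀ j, ∀ a ∈ T j, TypeOccurs s (ρ (p j)) R (τ j) a) :
    (∀ δ : ℝ, ForcesProportion (relAut R) T (LatticeFull R m) δ →
      LowerDensityGE {ℓ | ∃ _ : Fact ℓ.Prime,
        Semisimple (ρ ℓ) ∧ TateTensorsOf (ρ ℓ) (𝔤 ℓ)} δ) ∧
    (ForcesSplit (relAut R) T (LatticeFull R m) →
      ∃ f : ℤ[X], f.Monic ∧ HasDensityZero {ℓ | ∃ _ : Fact ℓ.Prime,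
        (f.map (Int.castRingHom (ZMod ℓ))).Splits ∧
          ¬ (Semisimple (ρ ℓ) ∧ TateTensorsOf (ρ ℓ) (𝔤 ℓ))}) ∧
    ∀ (j : J) (a : Equiv.Perm (Fin N)), 1 ∈ T j → a ∈ T j → (∀ i k, ∃ m : ℕ, (a ^ m) i = k) →
      LowerDensityGE {ℓ | ∃ _ : Fact ℓ.Prime, Semisimple (ρ ℓ) ∧ TateTensorsOf (ρ ℓ) (𝔤 ℓ)}
        ((N : ℝ) / (Nat.card (relAut R) : ℝ)) ∧
      ∃ f : ℤ[X], f.Monic ∧ HasDensityZero {ℓ | ∃ _ : Fact ℓ.Prime,
        (f.map (Int.castRingHom (ZMod ℓ))).Splits ∧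
          ¬ (Semisimple (ρ ℓ) ∧ TateTensorsOf (ρ ℓ) (𝔤 ℓ))} := by
  obtain ⟨h1, h2⟩ := mt_law h' R hRr T hne p τ hτ
  refine ⟨fun δ hδ => h1 δ (hδ.mono fun H hH ℓ _ => latticeFull_mono (hend ℓ) hH),
    fun hs => h2 (forcesSplit_mono hs fun H hH ℓ _ => latticeFull_mono (hend ℓ) hH),
    fun j a h1j haj hcyc => ?_⟩
  obtain ⟨h3, h4⟩ := proportion_of_cycle h'.pos (relAut R) T j h1j haj hcyc
  exact ⟨h1 _ (h3.mono fun H hH ℓ _ => latticeFull_of_one hH),
    h2 (forcesSplit_mono h4 fun H hH ℓ _ => latticeFull_of_one hH)⟩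

end

end Pool.Agent.N144.SP
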